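import Pool.Agent.H98.SD.Targets
import Pool.Agent.H7.HD.All

/-!
# CVR. Covering in the first case (MP_e37c09_lc)
-/

open Ordinal Cardinal Order Set
open scoped ZFSet

universe u

namespace Pool.Agent.H56.SD

open _root_.HD _root_.HD.SD
open _root_.HD.NF (w0)

/-- a countable union of small sets -/
theorem few_union {C D : Cardinal.{u}} (hC : ℵ₀ ≤ C) (hCD : C < D) (hD : D.IsStrongLimit)
    (Y : Ordinal.{u} → Set Ordinal.{u})
    (hY : ∀ i : Ordinal.{u}, i < w0 → Few (succ C).ord (Y i)) :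
    Few D.ord {a | ∃ i : Ordinal.{u}, i < w0 ∧ a ∈ Y i} := by
  have h1 : ∀ i : Ordinal.{u}, ∃ e : Ordinal.{u} → Ordinal.{u}, i < w0 →
      ∀ a ∈ Y i, ∃ t < (succ C).ord, e t = a := by
    intro i
    by_cases hi : i < w0
    · obtain ⟨τ, hτ, e, he⟩ := hY i hi
      refine ⟨e, fun _ a ha => ?_⟩
      obtain ⟨t, ht, h⟩ := he a ha
      exact ⟨t, ht.trans hτ, h⟩
    · exact ⟨fun t => t, fun h => absurd h hi⟩
  choose E hE using h1
  have hsD : succ C < D := (Order.succ_le_of_lt (Cardinal.cantor C)).trans_lt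
    (hD.two_power_lt hCD)
  have hD0 : ℵ₀ ≤ D := hC.trans hCD.le
  have hw : (w0 : Ordinal.{u}) < D.ord := Cardinal.ord_lt_ord.2 (hC.trans_lt hCD)
  have hw0 : (w0 : Ordinal.{u}) ≠ 0 := by
    have : (w0 : Ordinal.{u}) = ω := Cardinal.ord_aleph0
    rw [this]
    exact omega0_ne_zero
  refine ⟨w0 * (succ C).ord, ?_, fun s => E (s % w0) (s / w0), ?_⟩
  · exact Ordinal.isPrincipal_mul_ord hD0 hw (Cardinal.ord_lt_ord.2 hsD)
  · rintro a ⟨i, hi, ha⟩
    obtain ⟨t, ht, h⟩ := hE i hi a ha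
    refine ⟨w0 * t + i, ?_, ?_⟩
    · calc w0 * t + i < w0 * t + w0 := (add_lt_add_iff_left _).2 hi
        _ = w0 * succ t := (Ordinal.mul_succ _ _).symm
        _ ≤ w0 * (succ C).ord := mul_le_mul_right (Order.succ_le_of_lt ht) w0
    · have h2 : (w0 * t + i) % w0 = i := by
        rw [Ordinal.mul_add_mod_self, Ordinal.mod_eq_of_lt hi]
      have h3 : (w0 * t + i) / w0 = t := by
        rw [Ordinal.mul_add_div _ hw0, Ordinal.div_eq_zero_of_lt hi, add_zero]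
      show E ((w0 * t + i) % w0) ((w0 * t + i) / w0) = a
      rw [h2, h3]
      exact h

/-- the covering set -/
def CS (Q P : ZFSet.{u} → (ℕ → Ordinal.{u}) → Prop) (x : ZFSet.{u}) (v : ℕ → Ordinal.{u}) :
    Prop :=
  ∃ m, Q x (cns m fun n => v (n + 3)) ∧ (v 0 < m ∧
    Pos (v 1) (v 2) {b | P x (cns b (cns (v 0) fun _ => m))})

theorem dx_CS (hDXP : T_DXP.{u}) {Q P : ZFSet.{u} → (ℕ → Ordinal.{u}) → Prop} (hQ : DX Q)
    (hP : DX P) : DX (CS Q P) := by
  refine DX.ex (S := fun m x v => Q x (cns m fun n => v (n + 3)) ∧ (v 0 < m ∧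
    Pos (v 1) (v 2) {b | P x (cns b (cns (v 0) fun _ => m))})) ?_
  refine DX.and ?_ (DX.and (DX.o (DO.lt 1 0)) ?_)
  · refine (hQ.ren fun n => if n = 0 then 0 else n + 3).congr fun x w => ?_
    have e : (cns (w 0) fun n => w (n + 3 + 1)) =
        fun n => w (if n = 0 then 0 else n + 3) := by
      funext n
      rcases n with _ | n
      · rfl
      · rfl
    rw [e]
  · have hP' := hP.ren fun n => if n = 0 then 0 else if n = 1 then 2 else 1
    refine (hDXP _ hP' 2 3).congr fun x w => ?_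
    have e : ∀ b : Ordinal.{u}, (cns b (cns (w (0 + 1)) fun _ => w 0)) =
        fun n => cns b w (if n = 0 then 0 else if n = 1 then 2 else 1) := by
      intro b
      funext n
      rcases n with _ | _ | n <;> rfl
    simp only [e]

/-- CVR. Covering. -/
theorem pf_CVR (hDXP : T_DXP.{u}) (hREF : T_REF.{u}) (hFWB : T_FWB.{u}) : T_CVR.{u} := by
  intro δ hδ L hL x hC P hP hF y hy hyc
  obtain ⟨Q, hQ, wc, hlt, hcof, gD, hgD⟩ := hC
  obtain ⟨gy, hgy⟩ := hyc
  obtain ⟨η, -, θ, j, hj⟩ := All.xa δ hδ 0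
  obtain ⟨D, hD, hDr, hDs, hD0⟩ := All.xb δ η θ j hj
  have hDL : D < L := by
    have := hL.lt
    rw [hD] at this
    exact Cardinal.ord_lt_ord.1 this
  have hL0 : ℵ₀ < L := hD0.trans hDL
  have hw0 : (w0 : Ordinal.{u}) = ω := Cardinal.ord_aleph0
  -- the family
  obtain ⟨X, hXdef⟩ : ∃ X : Ordinal.{u} → Set Ordinal.{u}, X = fun (i : Ordinal.{u}) =>
      {b : Ordinal.{u} | ∀ n : ℕ, i = (n : Ordinal.{u}) →
      Q x (cns (gD (n.unpair.1 : ℕ)) wc) → (gy (n.unpair.2 : ℕ)) ∈ y →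
      gy (n.unpair.2 : ℕ) < gD (n.unpair.1 : ℕ) →
      b ∈ fam P x (fun _ => gD (n.unpair.1 : ℕ)) (gy (n.unpair.2 : ℕ))} := ⟨_, rfl⟩
  have h1L : (1 : Ordinal.{u}) < L.ord := by
    refine lt_of_lt_of_le ?_ (Cardinal.ord_le_ord.2 hL0.le)
    rw [Cardinal.ord_aleph0]
    exact one_lt_omega0
  have hpos : ∀ i < (w0 : Ordinal.{u}), Pos w0 (succ L).ord (X i) := by
    intro i hi
    rw [hw0] at hi
    obtain ⟨n, rfl⟩ := Ordinal.lt_omega0.1 hi
    by_cases hn : Q x (cns (gD (n.unpair.1 : ℕ)) wc) ∧ (gy (n.unpair.2 : ℕ)) ∈ y ∧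
        gy (n.unpair.2 : ℕ) < gD (n.unpair.1 : ℕ)
    · have h2 := (hF (gD (n.unpair.1 : ℕ)) (hlt _ hn.1)).1 (gy (n.unpair.2 : ℕ)) hn.2.2
      refine h2.mono fun b _ hb _ => ?_
      rw [hXdef]
      intro k hk _ _ _
      have hkn : n = k := by exact_mod_cast hk
      subst hkn
      exact hb
    · have h2 := (hF 1 h1L).1 0 zero_lt_one
      refine h2.mono fun b _ _ _ => ?_
      rw [hXdef]
      intro k hk h3 h4 h5
      have hkn : n = k := by exact_mod_cast hk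
      subst hkn
      exact absurd ⟨h3, h4, h5⟩ hn
  have hwδ : (w0 : Ordinal.{u}) < δ := by
    rw [hD]
    exact Cardinal.ord_lt_ord.2 hD0
  obtain ⟨β, hβ, hβ0, hβδ, hXβ⟩ := hREF δ hδ (succ L) (Cardinal.isRegular_succ hL0.le)
    (hL.lt.trans (Cardinal.ord_lt_ord.2 (Order.lt_succ L))) w0 hwδ X hpos
  refine ⟨CS Q P, dx_CS hDXP hQ hP, cns w0 (cns β wc), ?_, ?_⟩
  · -- few elements
    have hCD : β.cof < D := by
      rw [hD] at hβδ
      exact Cardinal.ord_lt_ord.1 hβδ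
    have h2 := few_union hβ0.le hCD hDs (fun i => {a | Q x (cns (gD i) wc) ∧ a < gD i ∧
      Pos w0 β (fam P x (fun _ => gD i) a)}) (fun i _ => ?_)
    · rw [hD]
      obtain ⟨τ, hτ, e, he⟩ := h2
      refine ⟨τ, hτ, e, fun a ha => he a ?_⟩
      obtain ⟨m, hm, ham, hp⟩ := ha
      obtain ⟨i, hi, him⟩ := hgD m hm
      refine ⟨i, hi, ?_⟩
      show Q x (cns (gD i) wc) ∧ a < gD i ∧ Pos w0 β (fam P x (fun _ => gD i) a)
      rw [him]
      exact ⟨hm, ham, hp⟩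
    · by_cases hm : Q x (cns (gD i) wc)
      · have h3 := hFWB β hβ0 (fun a => fam P x (fun _ => gD i) a)
          (fun a a' b h h' => (hF (gD i) (hlt _ hm)).2 b a a' h h')
        obtain ⟨τ, hτ, e, he⟩ := h3
        exact ⟨τ, hτ, e, fun a ha => he a ha.2.2⟩
      · refine ⟨0, ?_, fun t => t, fun a ha => absurd ha.1 hm⟩
        exact Cardinal.ord_pos.2 (by exact (Order.bot_lt_succ _))
  · -- covering
    intro a ha
    obtain ⟨m, hm, ham⟩ := hcof a (hy a ha)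
    obtain ⟨i, hi, him⟩ := hgD m hm
    obtain ⟨k, hk, hka⟩ := hgy a ha
    rw [hw0] at hi hk
    obtain ⟨i, rfl⟩ := Ordinal.lt_omega0.1 hi
    obtain ⟨k, rfl⟩ := Ordinal.lt_omega0.1 hk
    refine ⟨m, hm, ham, ?_⟩
    have h2 := hXβ ((Nat.pair i k : ℕ) : Ordinal.{u}) (by
      rw [hw0]
      exact Ordinal.natCast_lt_omega0 _)
    show Pos w0 β {b | P x (cns b (cns a fun _ => m))}
    refine h2.mono fun b _ hb _ => ?_
    rw [hXdef] at hb
    have h3 := hb (Nat.pair i k) rfl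
    rw [Nat.unpair_pair] at h3
    simp only [him, hka] at h3
    exact h3 hm ha ham

end Pool.Agent.H56.SD
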