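import Pool.Agent.H98.SD.TargetsR
import Pool.Agent.H56.SD.CVR

/-!
# CV2. Covering in the first case (MP_e37c09_lc)
-/

open Ordinal Cardinal Order Set
open scoped ZFSet

universe u

namespace Pool.Agent.H56.SD

open _root_.HD _root_.HD.SD
open _root_.HD.NF (w0)

/-- a countable union of small sets -/
theorem few_union2 {C D : Cardinal.{u}} (hC : ℵ₀ ≤ C) (hCD : C < D)
    (hD : ∀ c < D, (2 : Cardinal.{u}) ^ c < D)
    (Y : Ordinal.{u} → Set Ordinal.{u})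
    (hY : ∀ i : Ordinal.{u}, i < w0 → Few (succ C).ord (Y i)) :
    Few D.ord {a | ∃ i : Ordinal.{u}, i < w0 ∧ a ∈ Y i} := by
  refine few_union hC hCD ⟨?_, ?_⟩ Y hY
  · exact (Cardinal.aleph0_pos.trans_le (hC.trans hCD.le)).ne'
  · exact fun c hc => hD c hc

/-- the cofinality of an ordinal of size at most the singular cardinal `L` -/
theorem cof_lt_L {L : Cardinal.{u}} (hL : L.ord.cof = ℵ₀) {β : Ordinal.{u}}
    (hβ : β < (succ L).ord) (h0 : ℵ₀ < β.cof) : β.cof < L := by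
  have h1 : β.card ≤ L := Order.lt_succ_iff.1 (Cardinal.lt_ord.1 hβ)
  have h2 : β.cof ≤ L := (Ordinal.cof_le_card β).trans h1
  refine lt_of_le_of_ne h2 fun h => ?_
  have h3 : β.cof.ord.cof = β.cof := Ordinal.cof_ord_cof β
  rw [h, hL] at h3
  rw [h, ← h3] at h0
  exact lt_irrefl _ h0

/-- CV2. Covering. -/
theorem pf_CV2 (hDXP : T_DXP.{u}) (hFWB : T_FWB.{u}) : T_CV2.{u} := by
  intro L hL hR x hC P hP hF y hy hyc
  obtain ⟨Q, hQ, wc, hlt, hcof, gD, hgD⟩ := hC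
  obtain ⟨gy, hgy⟩ := hyc
  have hL0 : ℵ₀ < L := by
    have := hL.lt
    rw [← Cardinal.ord_aleph0] at this
    exact Cardinal.ord_lt_ord.1 this
  have hw0 : (w0 : Ordinal.{u}) = ω := Cardinal.ord_aleph0
  -- the family
  obtain ⟨X, hXdef⟩ : ∃ X : Ordinal.{u} → Set Ordinal.{u}, X = fun (i : Ordinal.{u}) =>
      {b : Ordinal.{u} | ∀ n : ℕ, i = (n : Ordinal.{u}) →
      Q x (cns (gD (n.unpair.1 : ℕ)) wc) → (gy (n.unpair.2 : ℕ)) ∈ y →
      gy (n.unpair.2 : ℕ) < gD (n.unpair.1 : ℕ) →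
      b ∈ fam P x (fun _ => gD (n.unpair.1 : ℕ)) (gy (n.unpair.2 : ℕ))} := ⟨_, rfl⟩
  have h1L : (1 : Ordinal.{u}) < L.ord := by
    refine lt_of_lt_of_le ?_ (Cardinal.ord_le_ord.2 hL0.le)
    rw [Cardinal.ord_aleph0]
    exact one_lt_omega0
  have hpos : ∀ i < (w0 : Ordinal.{u}), Pos w0 (succ L).ord (X i) := by
    intro i hi
    rw [hw0] at hi
    obtain ⟨n, rfl⟩ := Ordinal.lt_omega0.1 hi
    by_cases hn : Q x (cns (gD (n.unpair.1 : ℕ)) wc) ∧ (gy (n.unpair.2 : ℕ)) ∈ y ∧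
        gy (n.unpair.2 : ℕ) < gD (n.unpair.1 : ℕ)
    · have h2 := (hF (gD (n.unpair.1 : ℕ)) (hlt _ hn.1)).1 (gy (n.unpair.2 : ℕ)) hn.2.2
      refine h2.mono fun b _ hb _ => ?_
      rw [hXdef]
      intro k hk _ _ _
      have hkn : n = k := by exact_mod_cast hk
      subst hkn
      exact hb
    · have h2 := (hF 1 h1L).1 0 zero_lt_one
      refine h2.mono fun b _ _ _ => ?_
      rw [hXdef]
      intro k hk h3 h4 h5
      have hkn : n = k := by exact_mod_cast hk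
      subst hkn
      exact absurd ⟨h3, h4, h5⟩ hn
  obtain ⟨β, hβ, hβ0, hXβ⟩ := hR X hpos
  refine ⟨CS Q P, dx_CS hDXP hQ hP, cns w0 (cns β wc), ?_, ?_⟩
  · -- few elements
    have hCD : β.cof < L := cof_lt_L hL.cof hβ hβ0
    have h2 := few_union2 hβ0.le hCD hL.lim (fun i => {a | Q x (cns (gD i) wc) ∧ a < gD i ∧
      Pos w0 β (fam P x (fun _ => gD i) a)}) (fun i _ => ?_)
    · obtain ⟨τ, hτ, e, he⟩ := h2
      refine ⟨τ, hτ, e, fun a ha => he a ?_⟩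
      obtain ⟨m, hm, ham, hp⟩ := ha
      obtain ⟨i, hi, him⟩ := hgD m hm
      refine ⟨i, hi, ?_⟩
      show Q x (cns (gD i) wc) ∧ a < gD i ∧ Pos w0 β (fam P x (fun _ => gD i) a)
      rw [him]
      exact ⟨hm, ham, hp⟩
    · by_cases hm : Q x (cns (gD i) wc)
      · have h3 := hFWB β hβ0 (fun a => fam P x (fun _ => gD i) a)
          (fun a a' b h h' => (hF (gD i) (hlt _ hm)).2 b a a' h h')
        obtain ⟨τ, hτ, e, he⟩ := h3
        exact ⟨τ, hτ, e, fun a ha => he a ha.2.2⟩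
      · refine ⟨0, ?_, fun t => t, fun a ha => absurd ha.1 hm⟩
        exact Cardinal.ord_pos.2 (by exact (Order.bot_lt_succ _))
  · -- covering
    intro a ha
    obtain ⟨m, hm, ham⟩ := hcof a (hy a ha)
    obtain ⟨i, hi, him⟩ := hgD m hm
    obtain ⟨k, hk, hka⟩ := hgy a ha
    rw [hw0] at hi hk
    obtain ⟨i, rfl⟩ := Ordinal.lt_omega0.1 hi
    obtain ⟨k, rfl⟩ := Ordinal.lt_omega0.1 hk
    refine ⟨m, hm, ham, ?_⟩
    have h2 := hXβ ((Nat.pair i k : ℕ) : Ordinal.{u}) (by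
      rw [hw0]
      exact Ordinal.natCast_lt_omega0 _)
    show Pos w0 β {b | P x (cns b (cns a fun _ => m))}
    refine h2.mono fun b _ hb _ => ?_
    rw [hXdef] at hb
    have h3 := hb (Nat.pair i k) rfl
    rw [Nat.unpair_pair] at h3
    simp only [him, hka] at h3
    exact h3 hm ha ham

end Pool.Agent.H56.SD
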